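import Pool.Agent.Helper49.PA.GoalsA

/-! The ring of copies. -/

namespace PA49.PkRing

variable {L : Type} [Lattice L] [BoundedOrder L]

theorem ne_comp {X Y Z : Type} {s : PSim L X} {t : PSim L Y} {r : PSim L Z} {f : X → Y}
    {g : Y → Z} (hf : NE s t f) (hg : NE t r g) : NE s r (g ∘ f) :=
  fun x y => (hf x y).trans (hg _ _)

theorem isom_comp {X Y Z : Type} {s : PSim L X} {t : PSim L Y} {r : PSim L Z} {f : X → Y}
    {g : Y → Z} (hf : Isom s t f) (hg : Isom t r g) : Isom s r (g ∘ f) :=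
  fun x y => (hg _ _).trans (hf _ _)

theorem isom_ne {X Y : Type} {s : PSim L X} {t : PSim L Y} {f : X → Y} (hf : Isom s t f) :
    NE s t f := fun _ _ => (hf _ _).ge

theorem chain_map {Y C W : Type} {t : PSim L Y} {c : PSim L C} {w : PSim L W}
    {P : List (Y × Y)} {u v : C} (h : Chain t c P u v) {g : C → W} (hg : NE c w g) :
    Chain t w P (g u) (g v) := by
  unfold Chain at h ⊢
  induction h with
  | rel x y hxy =>
    obtain ⟨f, hf, p, hp, h1, h2⟩ := hxy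
    refine Relation.EqvGen.rel _ _ ⟨g ∘ f, ne_comp hf hg, p, hp, ?_, ?_⟩
    · rw [h1]; rfl
    · rw [h2]; rfl
  | refl x => exact Relation.EqvGen.refl _
  | symm x y _ ih => exact Relation.EqvGen.symm _ _ ih
  | trans x y z _ _ ih1 ih2 => exact Relation.EqvGen.trans _ _ _ ih1 ih2

theorem ring (h1 : G_AM1) (h2 : G_AM2) (h3 : G_CHAIN) : G_RING := by
  intro L _ _ W Y _ _ s t P c d hσ
  obtain ⟨C, hCf, cc, u, v, huv, hch⟩ := h3 L Y t P
  obtain ⟨V1, hV1, v1, i1, j1, hi1, hj1, he1, hk1, -⟩ := h1 L W C s cc c u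
  obtain ⟨V2, hV2, v2, i2, j2, hi2, hj2, he2, hk2, hs2⟩ := h1 L V1 C v1 cc (i1 d) v
  have hvu : cc.k v u = infP t.toPSim P := by rw [cc.symm, huv]
  have hp : v1.k (j1 v) (i1 d) = infP t.toPSim P := by
    rw [v1.symm, hk1, huv, s.symm d c]
    exact inf_eq_right.2 hσ
  have hq : v2.k (i2 (j1 v)) (j2 u) = infP t.toPSim P := by
    rw [hk2, hp, hvu, inf_idem]
  obtain ⟨V3, hV3, v3, i3, j3, hi3, hj3, he3, he4⟩ := h2 L V2 C v2 cc (i2 (j1 v)) (j2 u) u v
    (by rw [hq, huv]) (by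
      intro w
      rw [hq]
      rcases hs2 w with ⟨x, rfl⟩ | ⟨z, rfl⟩
      · right
        rw [hk2, hvu]
        exact inf_le_right
      · left
        rw [v2.symm, hk2, hp]
        exact inf_le_left)
  refine ⟨V3, hV3, v3, i3 ∘ (i2 ∘ i1), isom_comp (isom_comp hi1 hi2) hi3, ?_⟩
  have c1 := chain_map hch (w := v3.toPSim) (g := i3 ∘ (i2 ∘ j1))
    (isom_ne (isom_comp (isom_comp hj1 hi2) hi3))
  have c2 := chain_map hch (w := v3.toPSim) (g := j3) (isom_ne hj3)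
  have c3 := chain_map hch (w := v3.toPSim) (g := i3 ∘ j2) (isom_ne (isom_comp hj2 hi3))
  simp only [Function.comp] at c1 c3 ⊢
  rw [he1, he2]
  rw [← he3, ← he4] at c2
  exact Relation.EqvGen.trans _ _ _ c1 (Relation.EqvGen.trans _ _ _ c2 c3)

end PA49.PkRing
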